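import Pool.Agent.W47.TM.Defs

/-!
Project TM (helper47): elimination with bounds.
-/

set_option autoImplicit false

namespace Pool.Agent.W736.TM

open Finset Polynomial Pool.Agent.W47.TM

/-- rows of the Sylvester matrix -/
noncomputable def row (P Q : ℤ[X]) (q : ℕ) (i : ℕ) : ℤ[X] :=
  if i < q then X ^ i * P else X ^ (i - q) * Q

/-- the Sylvester matrix -/
noncomputable def Syl (P Q : ℤ[X]) (p q : ℕ) : Matrix (Fin (q + p)) (Fin (q + p)) ℤ :=
  fun i k => (row P Q q i).coeff k

theorem row_deg (P Q : ℤ[X]) (i : ℕ)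
    (hi : i < Q.natDegree + P.natDegree) :
    (row P Q Q.natDegree i).natDegree < Q.natDegree + P.natDegree := by
  unfold row
  split_ifs with h
  · refine lt_of_le_of_lt natDegree_mul_le ?_
    rw [natDegree_X_pow]; omega
  · refine lt_of_le_of_lt natDegree_mul_le ?_
    rw [natDegree_X_pow]; omega

theorem syl_det_ne (P Q : ℤ[X]) (hP : Irreducible P) (p q : ℕ) (hpdef : p = P.natDegree)
    (hqdef : q = Q.natDegree) (hp : 1 ≤ p) (hPQ : ¬ P ∣ Q) :
    (Syl P Q p q).det ≠ 0 := by
  intro h0
  rw [← Matrix.exists_vecMul_eq_zero_iff] at h0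
  obtain ⟨v, hv, h⟩ := h0
  have hsum : ∑ i : Fin (q + p), C (v i) * row P Q q i = 0 := by
    ext k
    rw [finsetSum_coeff, coeff_zero]
    by_cases hk : k < q + p
    · have := congrFun h ⟨k, hk⟩
      simp only [Matrix.vecMul, dotProduct, Syl, Pi.zero_apply] at this
      rw [← this]
      refine Finset.sum_congr rfl (fun i _ => ?_)
      rw [coeff_C_mul]
    · refine Finset.sum_eq_zero (fun i _ => ?_)
      rw [coeff_C_mul, coeff_eq_zero_of_natDegree_lt, mul_zero]
      have := row_deg P Q i (by have := i.2; omega)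
      rw [← hqdef, ← hpdef] at this
      omega
  rw [Fin.sum_univ_add] at hsum
  set a : ℤ[X] := ∑ i : Fin q, C (v (Fin.castAdd p i)) * X ^ (i : ℕ) with ha
  set b : ℤ[X] := ∑ i : Fin p, C (v (Fin.natAdd q i)) * X ^ (i : ℕ) with hb
  have h1 : ∑ i : Fin q, C (v (Fin.castAdd p i)) * row P Q q (Fin.castAdd p i : Fin (q + p)) =
      a * P := by
    rw [ha, Finset.sum_mul]
    refine Finset.sum_congr rfl (fun i _ => ?_)
    unfold row
    rw [if_pos (by simp)]
    simp [mul_assoc]
  have h2 : ∑ i : Fin p, C (v (Fin.natAdd q i)) * row P Q q (Fin.natAdd q i : Fin (q + p)) =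
      b * Q := by
    rw [hb, Finset.sum_mul]
    refine Finset.sum_congr rfl (fun i _ => ?_)
    unfold row
    rw [if_neg (by simp)]
    simp [mul_assoc]
  rw [h1, h2] at hsum
  have hprime : Prime P := hP.prime
  have hdvd : P ∣ b * Q := by
    refine ⟨-a, ?_⟩
    linear_combination hsum
  have hPb : P ∣ b := (hprime.dvd_or_dvd hdvd).resolve_right hPQ
  have hcb : ∀ i : Fin p, b.coeff i = v (Fin.natAdd q i) := by
    intro i
    rw [hb, finsetSum_coeff, Finset.sum_eq_single i]
    · simp
    · intro j _ hj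
      rw [coeff_C_mul, coeff_X_pow, if_neg, mul_zero]
      intro hh; exact hj (Fin.ext hh.symm)
    · intro hh; exact absurd (Finset.mem_univ i) hh
  have hca : ∀ i : Fin q, a.coeff i = v (Fin.castAdd p i) := by
    intro i
    rw [ha, finsetSum_coeff, Finset.sum_eq_single i]
    · simp
    · intro j _ hj
      rw [coeff_C_mul, coeff_X_pow, if_neg, mul_zero]
      intro hh; exact hj (Fin.ext hh.symm)
    · intro hh; exact absurd (Finset.mem_univ i) hh
  have hb0 : b = 0 := by
    by_contra hbne
    have h3 := natDegree_le_of_dvd hPb hbne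
    have h4 : b.natDegree ≤ p - 1 := by
      rw [hb]
      refine natDegree_sum_le_of_forall_le _ _ (fun i _ => ?_)
      refine (natDegree_C_mul_X_pow_le _ _).trans ?_
      have := i.2; omega
    omega
  have ha0 : a = 0 := by
    rw [hb0, zero_mul, add_zero] at hsum
    exact (mul_eq_zero.mp hsum).resolve_right hprime.ne_zero
  apply hv
  funext i
  refine Fin.addCases (fun i => ?_) (fun i => ?_) i
  · rw [← hca, ha0]; simp
  · rw [← hcb, hb0]; simp

/-- row-wise bound of a determinant -/
theorem det_row_bound {n : ℕ} (M : Matrix (Fin n) (Fin n) ℝ) (b : Fin n → ℝ)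
    (h : ∀ i j, |M i j| ≤ b i) : |M.det| ≤ (n.factorial : ℝ) * ∏ i, b i := by
  rw [Matrix.det_apply]
  refine (Finset.abs_sum_le_sum_abs _ _).trans ?_
  have : ∀ σ ∈ (Finset.univ : Finset (Equiv.Perm (Fin n))),
      |Equiv.Perm.sign σ • ∏ i, M (σ i) i| ≤ ∏ i, b i := by
    intro σ _
    have h1 : |Equiv.Perm.sign σ • ∏ i, M (σ i) i| = |∏ i, M (σ i) i| := by
      rcases Int.units_eq_one_or (Equiv.Perm.sign σ) with hs | hs
      · rw [hs, one_smul]
      · rw [hs]; simp
    rw [h1, Finset.abs_prod]
    calc ∏ i, |M (σ i) i| ≤ ∏ i, b (σ i) :=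
          Finset.prod_le_prod (fun _ _ => abs_nonneg _) (fun i _ => h (σ i) i)
      _ = ∏ i, b i := Equiv.prod_comp σ b
  refine (Finset.sum_le_sum this).trans ?_
  rw [Finset.sum_const, Finset.card_univ, Fintype.card_perm, Fintype.card_fin, nsmul_eq_mul]

theorem elim : S_ELIM := by
  intro d N
  refine ⟨((N + d + 1 : ℕ) : ℝ) * ((N + d).factorial : ℝ) * 4 ^ (N + d), ?_, ?_⟩
  · have h1 : (1 : ℝ) ≤ ((N + d + 1 : ℕ) : ℝ) := by exact_mod_cast Nat.le_add_left _ _
    have h2 : (1 : ℝ) ≤ ((N + d).factorial : ℝ) := by exact_mod_cast Nat.succ_le_of_lt (Nat.factorial_pos _)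
    have h3 : (1 : ℝ) ≤ 4 ^ (N + d) := one_le_pow₀ (by norm_num)
    exact one_le_mul_of_one_le_of_one_le (one_le_mul_of_one_le_of_one_le h1 h2) h3
  intro P Q H G x hP hp hpd hPQ hqN hH hG hPH hQG hx
  set p := P.natDegree with hpdef
  set q := Q.natDegree with hqdef
  have hdet := syl_det_ne P Q hP p q hpdef hqdef hp hPQ
  set M : Matrix (Fin (q + p)) (Fin (q + p)) ℤ := Syl P Q p q with hM
  set MR : Matrix (Fin (q + p)) (Fin (q + p)) ℝ := M.map (Int.castRingHom ℝ) with hMR
  have hdetR : MR.det = (M.det : ℝ) := by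
    have := (Int.castRingHom ℝ).map_det M
    simpa [hMR] using this.symm
  have hge : (1 : ℝ) ≤ |MR.det| := by
    rw [hdetR, ← Int.cast_abs]
    exact_mod_cast Int.one_le_abs hdet
  have hn : 0 < q + p := by omega
  set z : Fin (q + p) := ⟨0, hn⟩ with hz
  set v : Fin (q + p) → ℝ := fun k => x ^ (k : ℕ) with hv
  have hMv : ∀ i, (MR.mulVec v) i = aeval x (row P Q q i) := by
    intro i
    have hdeg := row_deg P Q i (by have := i.2; omega)
    rw [← hqdef, ← hpdef] at hdeg
    rw [aeval_eq_sum_range' hdeg, ← Fin.sum_univ_eq_sum_range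
      (fun k => (row P Q q i).coeff k • x ^ k)]
    simp only [Matrix.mulVec, dotProduct, hMR, Matrix.map_apply, hM, Syl, hv]
    refine Finset.sum_congr rfl (fun k _ => ?_)
    simp
  have hcr : MR.det = ∑ i, MR.adjugate z i * aeval x (row P Q q i) := by
    have h1 : (MR.adjugate * MR).mulVec v = MR.det • v := by
      rw [Matrix.adjugate_mul, Matrix.smul_mulVec, Matrix.one_mulVec]
    have h2 := congrFun h1 z
    rw [← Matrix.mulVec_mulVec] at h2
    simp only [Pi.smul_apply, smul_eq_mul] at h2
    have h3 : v z = 1 := by simp [hv, hz]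
    rw [h3, mul_one] at h2
    rw [← h2]
    simp only [Matrix.mulVec, dotProduct]
    refine Finset.sum_congr rfl (fun i _ => ?_)
    rw [← hMv i]
    rfl
  have hb : ∀ i : Fin (q + p), |MR.adjugate z i| ≤ ((N + d).factorial : ℝ) * (H ^ N * G ^ d) := by
    intro i
    rw [Matrix.adjugate_apply]
    have h1 := det_row_bound (MR.updateRow i (Pi.single z 1))
      (fun k => if (k : ℕ) < q then H else G) (by
        intro k l
        by_cases hk : k = i
        · subst hk
          rw [Matrix.updateRow_self]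
          have h01 : |(Pi.single z (1 : ℝ) : Fin (q + p) → ℝ) l| ≤ 1 := by
            by_cases hl : l = z
            · subst hl; simp
            · rw [Pi.single_eq_of_ne hl]; simp
          refine h01.trans ?_
          split_ifs <;> assumption
        · rw [Matrix.updateRow_ne hk]
          simp only [hMR, Matrix.map_apply, hM, Syl, row]
          split_ifs with h
          · rw [coeff_X_pow_mul']
            split_ifs
            · simpa using hPH _
            · simp; linarith
          · rw [coeff_X_pow_mul']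
            split_ifs
            · simpa using hQG _
            · simp; linarith)
    refine h1.trans ?_
    have h2 : ∏ k : Fin (q + p), (if (k : ℕ) < q then H else G) = H ^ q * G ^ p := by
      rw [Fin.prod_univ_add]
      congr 1
      · rw [Finset.prod_congr rfl (g := fun _ => H)]
        · simp
        · intro k _; rw [if_pos (by simp)]
      · rw [Finset.prod_congr rfl (g := fun _ => G)]
        · simp
        · intro k _; rw [if_neg (by simp)]
    rw [h2]
    have h3 : ((q + p).factorial : ℝ) ≤ ((N + d).factorial : ℝ) := by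
      exact_mod_cast Nat.factorial_le (by omega)
    have h4 : H ^ q ≤ H ^ N := pow_le_pow_right₀ hH hqN
    have h5 : G ^ p ≤ G ^ d := pow_le_pow_right₀ hG hpd
    gcongr
  have hr : ∀ i : Fin (q + p), |aeval x (row P Q q i)| ≤
      4 ^ (N + d) * (|aeval x P| + |aeval x Q|) := by
    intro i
    have hpow : ∀ j : ℕ, j ≤ N + d → |x| ^ j ≤ 4 ^ (N + d) := by
      intro j hj
      calc |x| ^ j ≤ 4 ^ j := pow_le_pow_left₀ (abs_nonneg _) hx _
        _ ≤ 4 ^ (N + d) := pow_le_pow_right₀ (by norm_num) hj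
    unfold row
    split_ifs with h
    · rw [map_mul, map_pow, aeval_X, abs_mul, abs_pow]
      have := hpow i (by omega)
      calc |x| ^ (i : ℕ) * |aeval x P| ≤ 4 ^ (N + d) * |aeval x P| := by gcongr
        _ ≤ _ := by
          have : 0 ≤ |aeval x Q| := abs_nonneg _
          gcongr; linarith
    · rw [map_mul, map_pow, aeval_X, abs_mul, abs_pow]
      have := hpow (i - q) (by have := i.2; omega)
      calc |x| ^ ((i : ℕ) - q) * |aeval x Q| ≤ 4 ^ (N + d) * |aeval x Q| := by gcongr
        _ ≤ _ := by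
          have : 0 ≤ |aeval x P| := abs_nonneg _
          gcongr; linarith
  calc (1 : ℝ) ≤ |MR.det| := hge
    _ = |∑ i, MR.adjugate z i * aeval x (row P Q q i)| := by rw [← hcr]
    _ ≤ ∑ i, |MR.adjugate z i * aeval x (row P Q q i)| := Finset.abs_sum_le_sum_abs _ _
    _ ≤ ∑ _i : Fin (q + p), (((N + d).factorial : ℝ) * (H ^ N * G ^ d)) *
        (4 ^ (N + d) * (|aeval x P| + |aeval x Q|)) := by
        refine Finset.sum_le_sum (fun i _ => ?_)
        rw [abs_mul]
        exact mul_le_mul (hb i) (hr i) (abs_nonneg _) (by positivity)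
    _ = ((q + p : ℕ) : ℝ) * ((((N + d).factorial : ℝ) * (H ^ N * G ^ d)) *
        (4 ^ (N + d) * (|aeval x P| + |aeval x Q|))) := by
        rw [Finset.sum_const, Finset.card_univ, Fintype.card_fin, nsmul_eq_mul]
    _ ≤ ((N + d + 1 : ℕ) : ℝ) * ((((N + d).factorial : ℝ) * (H ^ N * G ^ d)) *
        (4 ^ (N + d) * (|aeval x P| + |aeval x Q|))) := by
        have : ((q + p : ℕ) : ℝ) ≤ ((N + d + 1 : ℕ) : ℝ) := by exact_mod_cast (by omega)
        have h0 : 0 ≤ (((N + d).factorial : ℝ) * (H ^ N * G ^ d)) *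
          (4 ^ (N + d) * (|aeval x P| + |aeval x Q|)) := by positivity
        exact mul_le_mul_of_nonneg_right this h0
    _ = _ := by ring

end Pool.Agent.W736.TM
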